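import Pool.Agent.H629.GC.Stm

set_option autoImplicit false

open MeasureTheory ProbabilityTheory Set Filter
open scoped ENNReal Topology

namespace Pool.Agent.H740.GC.D1

open Pool.Agent.H629.GC

noncomputable section

theorem ex_add (a b : ℝ) : ex (a + b) = ex a * ex b := by
  unfold ex
  rw [Real.exp_add, ENNReal.ofReal_mul (Real.exp_pos _).le]

theorem ex_ne_zero (a : ℝ) : ex a ≠ 0 := by
  unfold ex
  rw [Ne, ENNReal.ofReal_eq_zero, not_le]
  exact Real.exp_pos _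

theorem ex_ne_top (a : ℝ) : ex a ≠ ∞ := ENNReal.ofReal_ne_top

theorem ex_rpow (a r : ℝ) : ex a ^ r = ex (a * r) := by
  unfold ex
  rw [ENNReal.ofReal_rpow_of_pos (Real.exp_pos _), ← Real.exp_mul]

theorem ex_inv (a : ℝ) : (ex a)⁻¹ = ex (-a) := by
  rw [← ENNReal.rpow_neg_one, ex_rpow, mul_neg_one]

theorem ex_le {a b : ℝ} : ex a ≤ ex b ↔ a ≤ b := by
  unfold ex
  rw [ENNReal.ofReal_le_ofReal_iff (Real.exp_pos _).le, Real.exp_le_exp]

theorem exists_ex {x : ℝ≥0∞} (h0 : x ≠ 0) (h1 : x ≠ ∞) : ∃ a : ℝ, x = ex a := by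
  refine ⟨Real.log x.toReal, ?_⟩
  unfold ex
  rw [Real.exp_log (ENNReal.toReal_pos h0 h1), ENNReal.ofReal_toReal h1]

theorem exists_between {x : ℝ≥0∞} {a C : ℝ} (h1 : ex (a - C) ≤ x) (h2 : x ≤ ex (a + C)) :
    ∃ b : ℝ, x = ex b ∧ |b - a| ≤ C := by
  obtain ⟨b, rfl⟩ := exists_ex (x := x) (fun h => ex_ne_zero _ (le_antisymm (h ▸ h1) zero_le))
    (fun h => ex_ne_top _ (top_le_iff.1 (h ▸ h2)))
  rw [ex_le] at h1 h2
  exact ⟨b, rfl, abs_le.2 ⟨by linarith, by linarith⟩⟩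

section

variable {Ω T : Type} [MeasurableSpace Ω] (P : Measure Ω) (X : ℕ → T → Ω → ℝ)

theorem K_symm (m n : ℕ) (x y : T) : K P X m n x y = K P X m n y x := by
  unfold K
  refine Finset.sum_congr rfl fun j _ => ?_
  congr 1
  ext ω
  ring

theorem QQ_cons (a : ℝ × T) (L : List (ℝ × T)) (m n : ℕ) : QQ P X (a :: L) m n =
    a.1 * a.1 * K P X m n a.2 a.2 +
      2 * (L.map fun b => a.1 * b.1 * K P X m n a.2 b.2).sum + QQ P X L m n := by
  unfold QQ
  simp only [List.map_cons, List.sum_cons]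
  rw [List.sum_map_add]
  have : (L.map fun b => b.1 * a.1 * K P X m n b.2 a.2) =
      L.map fun b => a.1 * b.1 * K P X m n a.2 b.2 := by
    refine List.map_congr_left fun b _ => ?_
    rw [K_symm P X m n b.2 a.2]
    ring
  rw [this]
  ring

theorem QQ_nil (m n : ℕ) : QQ P X [] m n = 0 := by simp [QQ]

omit [MeasurableSpace Ω] in
theorem W_cons (a : ℝ × T) (L : List (ℝ × T)) (m n : ℕ) (ω : Ω) :
    W X (a :: L) m n ω = ex (a.1 * S X m n a.2 ω) * W X L m n ω := by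
  have : W X (a :: L) m n ω = ex (a.1 * S X m n a.2 ω + ev X L m n ω) := by
    unfold W ex ev
    rw [List.map_cons, List.sum_cons]
  rw [this, ex_add]
  rfl

omit [MeasurableSpace Ω] in
theorem W_one (a : ℝ × T) (m n : ℕ) (ω : Ω) :
    W X [a] m n ω = ex (a.1 * S X m n a.2 ω) := by
  unfold W ex ev
  simp

theorem gh_rpow {β : ℝ} {m n : ℕ} {x : T} {p : ℝ} (hp : Ph P X [(β, x)] m n = ex p) (U : ℝ)
    (ω : Ω) : gh P X β m n x ω ^ U = ex (U * β * S X m n x ω) * ex (-(p * U)) := by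
  unfold gh
  rw [hp, W_one, div_eq_mul_inv, ex_inv, ← ex_add, ex_rpow, ← ex_add]
  congr 1
  simp only
  ring

theorem sum_bound {c : ℝ} (L : List (ℝ × T)) (f : ℝ × T → ℝ) (h : ∀ a ∈ L, |f a| ≤ c) :
    |(L.map f).sum| ≤ L.length * c := by
  induction L with
  | nil => simp
  | cons a L ih =>
    rw [List.map_cons, List.sum_cons, List.length_cons]
    have h1 := h a (by simp)
    have h2 := ih fun b hb => h b (by simp [hb])
    have h3 := abs_add_le (f a) (L.map f).sum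
    push_cast
    linarith

end

theorem mul_bound {a b A B : ℝ} (ha : |a| ≤ A) (hb : |b| ≤ B) : |a * b| ≤ A * B := by
  rw [abs_mul]
  exact mul_le_mul ha hb (abs_nonneg _) ((abs_nonneg _).trans ha)

theorem real_bound {β Λ C1 C2 c0 N U V a3 aL ax ay kx ky kxy sx sy q Δ : ℝ} (hU : |U| ≤ Λ)
    (hV : |V| ≤ Λ)
    (h3 : |a3 - (U * β * (U * β) * kx + 2 * (U * β * (V * β) * kxy + sx) +
      (V * β * (V * β) * ky + 2 * sy + q)) / 2| ≤ C1)
    (hL : |aL - q / 2| ≤ C1) (hx : |ax - β * β * kx / 2| ≤ C1) (hy : |ay - β * β * ky / 2| ≤ C1)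
    (k1 : |kx - Δ| ≤ C2) (k2 : |ky - Δ| ≤ C2) (k3 : |kxy - Δ| ≤ C2)
    (s1 : |sx| ≤ N * c0) (s2 : |sy| ≤ N * c0) :
    |a3 - U * ax - V * ay - aL - β ^ 2 / 2 * ((U + V) ^ 2 - (U + V)) * Δ| ≤
      (2 + 2 * Λ) * C1 + 2 * (N * c0) + β ^ 2 / 2 * (4 * Λ ^ 2 + 2 * Λ) * C2 := by
  have hΛ : 0 ≤ Λ := (abs_nonneg _).trans hU
  have e1 := mul_bound hU hx
  have e2 := mul_bound hV hy
  have hU2 : |U ^ 2 - U| ≤ Λ ^ 2 + Λ := by
    have h1 : |U ^ 2| ≤ Λ ^ 2 := by rw [abs_pow]; gcongr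
    have h2 := abs_sub (U ^ 2) U
    linarith
  have hV2 : |V ^ 2 - V| ≤ Λ ^ 2 + Λ := by
    have h1 : |V ^ 2| ≤ Λ ^ 2 := by rw [abs_pow]; gcongr
    have h2 := abs_sub (V ^ 2) V
    linarith
  have hUV : |2 * U * V| ≤ 2 * Λ ^ 2 := by
    have h1 := mul_bound hU hV
    rw [mul_assoc, abs_mul, abs_two]
    nlinarith
  have f1 := mul_bound hU2 k1
  have f2 := mul_bound hV2 k2
  have f3 := mul_bound hUV k3
  have f4 : |(U ^ 2 - U) * (kx - Δ) + (V ^ 2 - V) * (ky - Δ) + 2 * U * V * (kxy - Δ)| ≤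
      (4 * Λ ^ 2 + 2 * Λ) * C2 := by
    have h1 := abs_add_three ((U ^ 2 - U) * (kx - Δ)) ((V ^ 2 - V) * (ky - Δ))
      (2 * U * V * (kxy - Δ))
    have h2 : (Λ ^ 2 + Λ) * C2 + (Λ ^ 2 + Λ) * C2 + 2 * Λ ^ 2 * C2 =
      (4 * Λ ^ 2 + 2 * Λ) * C2 := by ring
    linarith
  have f5 := mul_bound (a := β ^ 2 / 2) (A := β ^ 2 / 2) (le_of_eq (abs_of_nonneg (by positivity))) f4
  have e : a3 - U * ax - V * ay - aL - β ^ 2 / 2 * ((U + V) ^ 2 - (U + V)) * Δ =
      (a3 - (U * β * (U * β) * kx + 2 * (U * β * (V * β) * kxy + sx) +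
      (V * β * (V * β) * ky + 2 * sy + q)) / 2) - (aL - q / 2) - U * (ax - β * β * kx / 2) -
      V * (ay - β * β * ky / 2) + sx + sy + β ^ 2 / 2 * ((U ^ 2 - U) * (kx - Δ) +
      (V ^ 2 - V) * (ky - Δ) + 2 * U * V * (kxy - Δ)) := by ring
  rw [e]
  rw [abs_le] at *
  constructor
  · linarith [h3.1, hL.2, e1.2, e2.2, s1.1, s2.1, f5.1]
  · linarith [h3.2, hL.1, e1.1, e2.1, s1.2, s2.2, f5.2]

theorem t_D1 : S_C3 → S_D1 := by
  intro _ Ω T _ _ P X Q s hch β N Λ c R hc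
  obtain ⟨C1, hC1⟩ := hch.mp (N + 2) (max (Λ * |β|) (max Λ |β|))
  obtain ⟨C2, hC2⟩ := hch.close (max R 0)
  obtain ⟨C3, hC3⟩ := hch.far c hc
  refine ⟨(2 + 2 * Λ) * C1 + 2 * (N * (Λ * |β| * Λ * |C3|)) +
    β ^ 2 / 2 * (4 * Λ ^ 2 + 2 * Λ) * C2, ?_⟩
  intro L m n x y U V hmn hL hx hy hU hV hxy hLx hLy
  have hΛ : 0 ≤ Λ := (abs_nonneg _).trans hU
  have hUβ : |U * β| ≤ Λ * |β| := mul_bound hU le_rfl
  have hVβ : |V * β| ≤ Λ * |β| := mul_bound hV le_rfl
  have adm3 : Adm Q (N + 2) (max (Λ * |β|) (max Λ |β|)) ((U * β, x) :: (V * β, y) :: L) := by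
    refine ⟨by simpa using hL.len, ?_, ?_⟩
    · intro a ha
      simp only [List.mem_cons] at ha
      rcases ha with rfl | rfl | ha
      · exact hUβ.trans (le_max_left _ _)
      · exact hVβ.trans (le_max_left _ _)
      · exact (hL.wt a ha).trans ((le_max_left _ _).trans (le_max_right _ _))
    · intro a ha
      simp only [List.mem_cons] at ha
      rcases ha with rfl | rfl | ha
      · exact hx
      · exact hy
      · exact hL.pt a ha
  have admL : Adm Q (N + 2) (max (Λ * |β|) (max Λ |β|)) L :=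
    ⟨hL.len.trans (by omega), fun a ha =>
      (hL.wt a ha).trans ((le_max_left _ _).trans (le_max_right _ _)), hL.pt⟩
  have adm1 : ∀ z ∈ Q, Adm Q (N + 2) (max (Λ * |β|) (max Λ |β|)) [(β, z)] := by
    intro z hz
    refine ⟨by simp, ?_, ?_⟩
    · intro a ha
      rw [List.mem_singleton] at ha
      subst ha
      exact (le_max_right _ _).trans (le_max_right _ _)
    · intro a ha
      rw [List.mem_singleton] at ha
      subst ha
      exact hz
  obtain ⟨a3, p3, h3⟩ := exists_between (hC1 _ m n adm3 hmn).1 (hC1 _ m n adm3 hmn).2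
  obtain ⟨aL, pL, hLL⟩ := exists_between (hC1 _ m n admL hmn).1 (hC1 _ m n admL hmn).2
  obtain ⟨ax, px, hxx⟩ := exists_between (hC1 _ m n (adm1 x hx) hmn).1 (hC1 _ m n (adm1 x hx) hmn).2
  obtain ⟨ay, py, hyy⟩ := exists_between (hC1 _ m n (adm1 y hy) hmn).1 (hC1 _ m n (adm1 y hy) hmn).2
  have hR : 0 ≤ max R 0 * Real.exp (-(s n)) :=
    mul_nonneg (le_max_right _ _) (Real.exp_pos _).le
  have k1 := hC2 m n x x hmn hx hx (by rw [dist_self]; exact hR)
  have k2 := hC2 m n y y hmn hy hy (by rw [dist_self]; exact hR)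
  have k3 := hC2 m n x y hmn hx hy (hxy.trans
    (mul_le_mul_of_nonneg_right (le_max_left _ _) (Real.exp_pos _).le))
  rw [QQ_cons, QQ_cons, List.map_cons, List.sum_cons] at h3
  rw [QQ_cons, QQ_nil] at hxx hyy
  simp only [List.map_nil, List.sum_nil, mul_zero, add_zero] at hxx hyy h3
  have hC30 : 0 ≤ Λ * |β| * Λ * |C3| := by positivity
  have hs : ∀ (z : T) (B : ℝ), z ∈ Q → |B| ≤ Λ * |β| → Far c (s m) L {z} →
      |(L.map fun b => B * b.1 * K P X m n z b.2).sum| ≤ N * (Λ * |β| * Λ * |C3|) := by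
    intro z B hz hB hF
    have h1 := sum_bound (c := Λ * |β| * Λ * |C3|) L (fun b => B * b.1 * K P X m n z b.2) (by
      intro a ha
      have h2 := hF a ha z rfl
      rw [dist_comm] at h2
      have h3 := (hC3 m n z a.2 hmn hz (hL.pt a ha) h2).trans (le_abs_self C3)
      exact mul_bound (mul_bound hB (hL.wt a ha)) h3)
    refine h1.trans (mul_le_mul_of_nonneg_right ?_ hC30)
    exact_mod_cast hL.len
  have hsx := hs x (U * β) hx hUβ hLx
  have hsy := hs y (V * β) hy hVβ hLy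
  have key := real_bound (Δ := s n - s m) hU hV h3 hLL hxx hyy k1 k2 k3 hsx hsy
  have hint : ∫⁻ ω, W X L m n ω * gh P X β m n x ω ^ U * gh P X β m n y ω ^ V ∂P =
      ex (a3 - U * ax - V * ay) := by
    have e1 : ∀ ω, W X L m n ω * gh P X β m n x ω ^ U * gh P X β m n y ω ^ V =
        W X ((U * β, x) :: (V * β, y) :: L) m n ω * (ex (-(ax * U)) * ex (-(ay * V))) := by
      intro ω
      rw [gh_rpow P X px, gh_rpow P X py, W_cons, W_cons]
      ring
    simp only [e1]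
    rw [lintegral_mul_const' _ _ (ENNReal.mul_ne_top (ex_ne_top _) (ex_ne_top _))]
    have e2 : ∫⁻ ω, W X ((U * β, x) :: (V * β, y) :: L) m n ω ∂P = ex a3 := p3
    rw [e2, ← ex_add, ← ex_add]
    congr 1
    ring
  rw [hint, pL, ← ex_add, ← ex_add, ex_le, ex_le]
  rw [abs_le] at key
  constructor
  · linarith [key.1]
  · linarith [key.2]

end

end Pool.Agent.H740.GC.D1
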